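import Pool.Agent.Helper15.UL.GoalsE

/-! # Packet UL COD (MP_57a173_lc) -/

noncomputable section

namespace UL.PkCOD

open UL

/-- The formula which is always true. -/
def tt {J : Type} (j : J) : PF J :=
  PF.or fun n => if n = 0 then PF.atom j else PF.neg (PF.atom j)

theorem tt_tr {J : Type} (j : J) (v : J → Prop) : (tt j).tr v := by
  unfold tt
  by_cases h : v j
  · exact ⟨0, h⟩
  · exact ⟨1, h⟩

theorem thm : UL.G_GEN → UL.G_COD := by
  rintro ⟨-, g2, g3, -⟩
  refine ⟨fun I D S hS hD => ?_, fun J _ S hS => ?_⟩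
  · classical
    let ρ : Pt I → Pt I := fun z ξ => if ξ ∈ D then z ξ else oneY
    let C : Set ((ℕ → Bool) × Pt I) → Prop := fun S' =>
      ∃ c : PF (ℕ ⊕ (D × ℕ)), ∀ x z, (x, ρ z) ∈ S' ↔
        (c.map (Sum.map id (fun p : D × ℕ => ((p.1 : I), p.2)))).tr (tv2 x z)
    have hC : C S := by
      refine g2 I C ?_ ?_ ?_ ?_ S hS
      · refine ⟨PF.neg (tt (Sum.inl 0)), fun x z => ?_⟩
        constructor
        · intro h
          exact absurd h (Set.notMem_empty _)
        · intro h
          exfalso
          apply h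
          rw [PF.map_tr]
          exact tt_tr _ _
      · rintro S' (⟨n, rfl⟩ | ⟨ξ, i, rfl⟩)
        · exact ⟨PF.atom (Sum.inl n), fun x z => Iff.rfl⟩
        · by_cases h : ξ ∈ D
          · refine ⟨PF.atom (Sum.inr (⟨ξ, h⟩, i)), fun x z => ?_⟩
            have e : ρ z ξ = z ξ := if_pos h
            show ρ z ξ i = true ↔ z ξ i = true
            rw [e]
          · refine ⟨tt (Sum.inl 0), fun x z => ?_⟩
            have e : ρ z ξ = oneY := if_neg h
            constructor
            · intro _
              rw [PF.map_tr]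
              exact tt_tr _ _
            · intro _
              show ρ z ξ i = true
              rw [e]
              rfl
      · rintro S' ⟨c, hc⟩
        exact ⟨PF.neg c, fun x z => not_congr (hc x z)⟩
      · intro S' h
        choose c hc using h
        refine ⟨PF.or c, fun x z => ?_⟩
        rw [Set.mem_iUnion]
        exact exists_congr fun n => hc n x z
    obtain ⟨c, hc⟩ := hC
    refine ⟨c, fun x z => ?_⟩
    rw [← hc x z]
    apply hD
    intro ξ hξ
    exact (if_pos hξ : ρ z ξ = z ξ).symm
  · obtain ⟨j0⟩ := (inferInstance : Nonempty J)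
    let C : Set (J → Bool) → Prop := fun S' =>
      ∃ c : PF J, ∀ x, x ∈ S' ↔ c.tr (fun j => x j = true)
    refine g3 J C ?_ ?_ ?_ ?_ S hS
    · refine ⟨PF.neg (tt j0), fun x => ?_⟩
      constructor
      · intro h
        exact absurd h (Set.notMem_empty _)
      · intro h
        exact absurd (tt_tr _ _) h
    · rintro S' ⟨j, rfl⟩
      exact ⟨PF.atom j, fun x => Iff.rfl⟩
    · rintro S' ⟨c, hc⟩
      exact ⟨PF.neg c, fun x => not_congr (hc x)⟩
    · intro S' h
      choose c hc using h
      refine ⟨PF.or c, fun x => ?_⟩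
      rw [Set.mem_iUnion]
      exact exists_congr fun n => hc n x

end UL.PkCOD
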