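import Pool.Agent.Helper15.UL.GoalsA

/-! # Packet UL FPS (MP_57a173_lc) -/

noncomputable section

namespace UL.PkFPS

open UL

variable {I : Type} [LinearOrder I]

theorem val_eq {χ : Pt I → Pt I} {L : I → Pt I → Str → Str} (h : IsRep L χ) {z : Pt I} {ξ : I}
    (hL : ∀ σ, L ξ z σ = σ) : χ z ξ = z ξ := by
  apply Y.ext
  intro i
  have h1 := h.pre z ξ (i + 1)
  rw [hL] at h1
  have h2 := h1 i (by simp)
  rw [res_get] at h2
  exact h2.symm

/-- Enumeration of the support. -/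
theorem exists_enum {D : Set I} {χ : Pt I → Pt I} (h : MD D χ) :
    ∃ e : ℕ → Option I, (∀ m ξ, e m = some ξ → ξ ∈ D) ∧
      ∀ z ξ, χ z ξ ≠ z ξ → ∃ m, e m = some ξ := by
  obtain ⟨⟨L, hL⟩, hD⟩ := h
  obtain ⟨A, hA, hA'⟩ := hL.sup
  have key : ∀ z ξ, χ z ξ ≠ z ξ → ξ ∈ A ∩ D := by
    intro z ξ hne
    constructor
    · by_contra hc
      exact hne (val_eq hL (fun σ => hA' ξ hc z σ))
    · by_contra hc
      exact hne (hD z ξ hc)
  rcases (A ∩ D).eq_empty_or_nonempty with h0 | h0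
  · refine ⟨fun _ => none, fun m ξ hm => by simp at hm, fun z ξ hne => ?_⟩
    have := key z ξ hne
    rw [h0] at this
    exact absurd this (Set.notMem_empty ξ)
  · obtain ⟨s, hs⟩ := (hA.mono Set.inter_subset_left : (A ∩ D).Countable).exists_eq_range h0
    refine ⟨fun m => some (s m), fun m ξ hm => ?_, fun z ξ hne => ?_⟩
    · have h1 : s m = ξ := by simpa using hm
      have h2 : s m ∈ A ∩ D := by rw [hs]; exact ⟨m, rfl⟩
      rw [h1] at h2
      exact h2.2
    · have := key z ξ hne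
      rw [hs] at this
      obtain ⟨m, hm⟩ := this
      exact ⟨m, congrArg some hm⟩

open Classical in
/-- The chosen enumeration. -/
def En (D : Set I) (χ : Pt I → Pt I) : ℕ → Option I :=
  if h : MD D χ then (exists_enum h).choose else fun _ => none

theorem En_mem {D : Set I} {χ : Pt I → Pt I} {m : ℕ} {ξ : I} (h : En D χ m = some ξ) : ξ ∈ D := by
  unfold En at h
  by_cases hM : MD D χ
  · rw [dif_pos hM] at h
    exact (exists_enum hM).choose_spec.1 m ξ h
  · rw [dif_neg hM] at h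
    simp at h

theorem En_mov {D : Set I} {χ : Pt I → Pt I} (hM : MD D χ) {z : Pt I} {ξ : I}
    (h : χ z ξ ≠ z ξ) : ∃ m, En D χ m = some ξ := by
  unfold En
  rw [dif_pos hM]
  exact (exists_enum hM).choose_spec.2 z ξ h

/-- Some of the coordinates moved by the maps in the list. -/
def mv (D : Set I) (l : List (Pt I → Pt I)) (ξ : I) : Prop :=
  ∃ χ ∈ l, ∃ m, m < l.length ∧ En D χ m = some ξ

open Classical in
/-- The levels. -/
def qq (D : Set I) (q : I → ℕ) (l : List (Pt I → Pt I)) (ξ : I) : ℕ :=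
  if mv D l ξ then max (q ξ) l.length else q ξ

/-- The product. -/
def PHI (l : List (Pt I → Pt I)) : Pt I → Pt I := l.foldl (fun a b => a ∘ b) id

theorem PHI_append (l : List (Pt I → Pt I)) (χ : Pt I → Pt I) :
    PHI (l ++ [χ]) = PHI l ∘ χ := by
  unfold PHI
  rw [List.foldl_append]
  rfl

theorem PHI_MD {D : Set I} (l : List (Pt I → Pt I)) (h : ∀ χ ∈ l, MD D χ) : MD D (PHI l) := by
  induction l using List.reverseRecOn with
  | nil => exact MD.id' D
  | append_singleton l χ ih =>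
    rw [PHI_append]
    exact (ih fun χ' hχ' => h χ' (by simp [hχ'])).comp (h χ (by simp))

theorem mv_finite (D : Set I) (l : List (Pt I → Pt I)) : {ξ | mv D l ξ}.Finite := by
  have e : {ξ | mv D l ξ} ⊆
      ⋃ χ ∈ {χ | χ ∈ l}, ⋃ m ∈ Set.Iio l.length, {ξ | En D χ m = some ξ} := by
    rintro ξ ⟨χ, hχ, m, hm, h⟩
    exact Set.mem_biUnion (show χ ∈ {χ | χ ∈ l} from hχ)
      (Set.mem_biUnion (show m ∈ Set.Iio l.length from hm) h)
  refine Set.Finite.subset ?_ e
  refine Set.Finite.biUnion (List.finite_toSet l) fun χ _ => ?_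
  refine Set.Finite.biUnion (Set.finite_Iio _) fun m _ => ?_
  refine Set.Subsingleton.finite ?_
  intro a ha b hb
  have h1 : En D χ m = some a := ha
  have h2 : En D χ m = some b := hb
  rw [h1] at h2
  exact Option.some_injective _ h2

theorem qq_fin {D : Set I} {q : I → ℕ} (hq : Fin0 q) (l : List (Pt I → Pt I)) :
    Fin0 (qq D q l) := by
  refine Set.Finite.subset (hq.union (mv_finite D l)) ?_
  intro ξ hξ
  by_cases h : mv D l ξ
  · exact Or.inr h
  · left
    have h1 : qq D q l ξ ≠ 0 := hξ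
    unfold qq at h1
    rw [if_neg h] at h1
    exact h1

theorem qq_out {D : Set I} {q : I → ℕ} (hq : ∀ ξ, ξ ∉ D → q ξ = 0) (l : List (Pt I → Pt I))
    (ξ : I) (hξ : ξ ∉ D) : qq D q l ξ = 0 := by
  unfold qq
  rw [if_neg]
  · exact hq ξ hξ
  · rintro ⟨χ, -, m, -, h⟩
    exact hξ (En_mem h)

theorem qq_nil (D : Set I) (q : I → ℕ) : qq D q [] = q := by
  funext ξ
  unfold qq
  rw [if_neg]
  rintro ⟨χ, hχ, -⟩
  simp at hχ

theorem qq_mono (D : Set I) (q : I → ℕ) (l : List (Pt I → Pt I)) (χ : Pt I → Pt I) (ξ : I) :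
    qq D q l ξ ≤ qq D q (l ++ [χ]) ξ := by
  unfold qq
  by_cases h : mv D l ξ
  · have h' : mv D (l ++ [χ]) ξ := by
      obtain ⟨χ', h1, m, h2, h3⟩ := h
      exact ⟨χ', by simp [h1], m, by simp; omega, h3⟩
    rw [if_pos h, if_pos h']
    simp only [List.length_append, List.length_singleton]
    omega
  · rw [if_neg h]
    split_ifs
    · exact le_max_left _ _
    · exact le_rfl

theorem step {D : Set I} (hFP : ∀ q, Fin0 q → (∀ ξ, ξ ∉ D → q ξ = 0) → FP D q)
    {q : I → ℕ} (hq : Fin0 q) (hq' : ∀ ξ, ξ ∉ D → q ξ = 0) {Q : ℕ → (Pt I → Pt I) → Prop}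
    (hd : ∀ i, Dns D (Q i)) (ho : ∀ i, Opn D (Q i)) (l : List (Pt I → Pt I))
    (hl : ∀ χ ∈ l, MD D χ) :
    ∃ χ, MD D χ ∧ Pure (qq D q l) χ ∧ Cov D (PHI l ∘ χ) (Q l.length) := by
  have hP := PHI_MD l hl
  obtain ⟨f, h1, h2, h3⟩ := hFP (qq D q l) (qq_fin hq l) (qq_out hq' l)
    (fun g => Q l.length (PHI l ∘ g))
    (by
      intro f hf
      obtain ⟨g, hg, hg'⟩ := hd l.length (PHI l ∘ f) (hP.comp hf)
      exact ⟨g, hg, hg'⟩)
    (by
      intro f g hf hQ hg
      exact ho l.length (PHI l ∘ f) g (hP.comp hf) hQ hg)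
  refine ⟨f, h1, h2, ?_⟩
  obtain ⟨A, hA, hc, h⟩ := h3
  exact ⟨A, hA, hc, h⟩

theorem thm : UL.G_FL → UL.G_FPS := by
  intro hFL I _ _ D hD hFP q hq hq' Q hd ho
  classical
  have hst := fun (l : {l : List (Pt I → Pt I) // ∀ χ ∈ l, MD D χ}) =>
    step hFP hq hq' hd ho l.1 l.2
  choose nx hn1 hn2 hn3 using hst
  -- the sequence of lists
  let Ls : ℕ → {l : List (Pt I → Pt I) // ∀ χ ∈ l, MD D χ} := fun n =>
    Nat.rec ⟨[], by simp⟩ (fun _ l => ⟨l.1 ++ [nx l], by
      intro χ hχ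
      rcases List.mem_append.1 hχ with h | h
      · exact l.2 χ h
      · rw [List.mem_singleton.1 h]
        exact hn1 l⟩) n
  have hLs : ∀ n, (Ls (n + 1)).1 = (Ls n).1 ++ [nx (Ls n)] := fun n => rfl
  have hL0 : (Ls 0).1 = [] := rfl
  have hlen : ∀ n, (Ls n).1.length = n := by
    intro n
    induction n with
    | zero => rw [hL0]; rfl
    | succ n ih => rw [hLs, List.length_append, ih]; rfl
  have hmem : ∀ l n, l < n → nx (Ls l) ∈ (Ls n).1 := by
    intro l n
    induction n with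
    | zero => intro h; omega
    | succ n ih =>
      intro h
      rw [hLs]
      rcases Nat.lt_succ_iff_lt_or_eq.1 h with h | h
      · exact List.mem_append.2 (Or.inl (ih h))
      · rw [h]; simp
  obtain ⟨ψ, hψ⟩ := hFL I (fun l => nx (Ls l)) (fun l => qq D q (Ls l).1) (fun l => hn2 (Ls l))
    (fun l ξ => by
      show qq D q (Ls l).1 ξ ≤ qq D q (Ls (l + 1)).1 ξ
      rw [hLs]
      exact qq_mono D q _ _ ξ)
    (fun l z ξ hne n => by
      obtain ⟨m0, hm0⟩ := En_mov (hn1 (Ls l)) hne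
      refine ⟨max n (max (l + 1) (m0 + 1)), ?_⟩
      have h1 : mv D (Ls (max n (max (l + 1) (m0 + 1)))).1 ξ :=
        ⟨nx (Ls l), hmem l _ (by omega), m0, by rw [hlen]; omega, hm0⟩
      show n ≤ qq D q _ ξ
      unfold qq
      rw [if_pos h1, hlen]
      omega)
  have hlo : ∀ j, UL.lo D (ψ 0) = PHI (Ls j).1 ∘ UL.lo D (ψ j) := by
    intro j
    induction j with
    | zero => rw [hL0]; rfl
    | succ j ih =>
      rw [ih, hLs, PHI_append, Function.comp_assoc]
      congr 1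
      rw [(hψ j).2.1, lo_comp (hn1 (Ls j)).1 hD, MD.lo_eq (hn1 (Ls j))]
  refine ⟨UL.lo D (ψ 0), (hψ 0).1.isM.lo D, ?_, fun j => ?_⟩
  · have h1 := (hψ 0).1.lo D
    have h2 : qq D q (Ls 0).1 = q := by rw [hL0, qq_nil]
    have h3 : Pure (qq D q (Ls 0).1) (UL.lo D (ψ 0)) := h1
    rw [h2] at h3
    exact h3
  · rw [hlo (j + 1)]
    have h1 := hn3 (Ls j)
    rw [hlen, ← PHI_append, ← hLs] at h1
    exact Cov.comp' hD (PHI_MD _ (Ls (j + 1)).2) (ho j) h1 ((hψ (j + 1)).1.isM.lo D)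

end UL.PkFPS
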